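import Pool.Agent.W219.Klarner.Defs

set_option autoImplicit false

namespace Pool.Agent.W219.Klarner

open Finset

/-- steps inside a set -/
def St (S : Finset (ℤ × ℤ)) (x y : ℤ × ℤ) : Prop := x ∈ S ∧ y ∈ S ∧ Adj x y

abbrev Ch (S : Finset (ℤ × ℤ)) := Relation.ReflTransGen (St S)

theorem adj_symm {a b : ℤ × ℤ} (h : Adj a b) : Adj b a := by
  unfold Adj at *
  rw [abs_sub_comm b.1, abs_sub_comm b.2]; exact h

theorem st_symm {S : Finset (ℤ × ℤ)} {x y : ℤ × ℤ} (h : St S x y) : St S y x :=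
  ⟨h.2.1, h.1, adj_symm h.2.2⟩

theorem ch_symm {S : Finset (ℤ × ℤ)} {x y : ℤ × ℤ} (h : Ch S x y) : Ch S y x := by
  induction h with
  | refl => exact .refl
  | tail _ h ih => exact .head (st_symm h) ih

theorem ch_mono {S T : Finset (ℤ × ℤ)} (hST : S ⊆ T) {x y : ℤ × ℤ} (h : Ch S x y) : Ch T x y :=
  Relation.ReflTransGen.mono (fun _ _ h => ⟨hST h.1, hST h.2.1, h.2.2⟩) _ _ h

theorem isPoly_iff {S : Finset (ℤ × ℤ)} :
    IsPolyomino S ↔ S.Nonempty ∧ ∀ a ∈ S, ∀ b ∈ S, Ch S a b := Iff.rfl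

/-- enough: everything is connected to one cell -/
theorem isPoly_of {S : Finset (ℤ × ℤ)} (v : ℤ × ℤ) (hv : v ∈ S) (h : ∀ a ∈ S, Ch S a v) :
    IsPolyomino S :=
  ⟨⟨v, hv⟩, fun a ha b hb => (h a ha).trans (ch_symm (h b hb))⟩

theorem isPoly_union {A B : Finset (ℤ × ℤ)} (hA : IsPolyomino A) (hB : IsPolyomino B)
    {u v : ℤ × ℤ} (hu : u ∈ A) (hv : v ∈ B) (huv : Adj u v) : IsPolyomino (A ∪ B) := by
  refine isPoly_of v (mem_union_right _ hv) ?_
  intro a ha
  rcases mem_union.mp ha with ha | ha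
  · have h1 : Ch (A ∪ B) a u := ch_mono subset_union_left (hA.2 a ha u hu)
    exact h1.tail ⟨mem_union_left _ hu, mem_union_right _ hv, huv⟩
  · exact ch_mono subset_union_right (hB.2 a ha v hv)

theorem mem_translate {v a : ℤ × ℤ} {S : Finset (ℤ × ℤ)} : a ∈ translate v S ↔ a - v ∈ S := by
  unfold translate
  rw [mem_image]
  constructor
  · rintro ⟨b, hb, rfl⟩; simpa using hb
  · intro h; exact ⟨a - v, h, by simp⟩

theorem translate_translate (v w : ℤ × ℤ) (S : Finset (ℤ × ℤ)) :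
    translate w (translate v S) = translate (v + w) S := by
  ext a
  simp only [mem_translate]
  rw [show a - w - v = a - (v + w) by abel]

theorem translate_zero (S : Finset (ℤ × ℤ)) : translate 0 S = S := by
  ext a; simp [mem_translate]

theorem card_translate (v : ℤ × ℤ) (S : Finset (ℤ × ℤ)) : (translate v S).card = S.card :=
  card_image_of_injective _ (add_left_injective v)

theorem translate_union (v : ℤ × ℤ) (S T : Finset (ℤ × ℤ)) :
    translate v (S ∪ T) = translate v S ∪ translate v T := image_union _ _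

theorem adj_add {a b : ℤ × ℤ} (v : ℤ × ℤ) (h : Adj a b) : Adj (a + v) (b + v) := by
  unfold Adj at *
  simpa using h

theorem isPoly_translate {S : Finset (ℤ × ℤ)} (v : ℤ × ℤ) (h : IsPolyomino S) :
    IsPolyomino (translate v S) := by
  obtain ⟨⟨x, hx⟩, hS⟩ := h
  refine ⟨⟨x + v, by simpa [mem_translate] using hx⟩, ?_⟩
  intro a ha b hb
  rw [mem_translate] at ha hb
  have h1 := hS _ ha _ hb
  have h2 : Relation.ReflTransGen (St (translate v S)) (a - v + v) (b - v + v) := by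
    refine Relation.ReflTransGen.lift (fun z => z + v) ?_ _ _ h1
    intro x y hxy
    exact ⟨by rw [mem_translate]; simpa using hxy.1, by rw [mem_translate]; simpa using hxy.2.1,
      adj_add v hxy.2.2⟩
  rw [sub_add_cancel, sub_add_cancel] at h2
  exact h2

/-- the four neighbours -/
def nb (v : ℤ × ℤ) : Finset (ℤ × ℤ) := {(v.1 + 1, v.2), (v.1 - 1, v.2), (v.1, v.2 + 1), (v.1, v.2 - 1)}

theorem mem_nb {v w : ℤ × ℤ} : w ∈ nb v ↔ Adj v w := by
  obtain ⟨a, b⟩ := v
  obtain ⟨c, e⟩ := w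
  simp only [nb, Adj, mem_insert, mem_singleton, Prod.mk.injEq]
  constructor
  · rintro (⟨rfl, rfl⟩ | ⟨rfl, rfl⟩ | ⟨rfl, rfl⟩ | ⟨rfl, rfl⟩) <;> simp
  · intro h
    rcases abs_cases (a - c) with h1 | h1 <;> rcases abs_cases (b - e) with h2 | h2 <;> omega

theorem card_nb (v : ℤ × ℤ) : (nb v).card ≤ 4 := Finset.card_le_four

section split

open Classical in
/-- the component of `x` in `B \ {v}` -/
noncomputable def comp (B : Finset (ℤ × ℤ)) (v x : ℤ × ℤ) : Finset (ℤ × ℤ) :=
  (B.erase v).filter (fun y => Ch (B.erase v) x y)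

theorem mem_comp {B : Finset (ℤ × ℤ)} {v x y : ℤ × ℤ} :
    y ∈ comp B v x ↔ y ∈ B.erase v ∧ Ch (B.erase v) x y := by
  classical
  unfold comp; rw [mem_filter]

theorem ch_comp {B : Finset (ℤ × ℤ)} {v x y : ℤ × ℤ} (h : Ch (B.erase v) x y) :
    Ch (comp B v x) x y := by
  induction h with
  | refl => exact .refl
  | @tail b c hxb hbc ih =>
    refine ih.tail ⟨?_, ?_, hbc.2.2⟩
    · exact mem_comp.mpr ⟨hbc.1, hxb⟩
    · exact mem_comp.mpr ⟨hbc.2.1, hxb.tail hbc⟩

theorem comp_poly {B : Finset (ℤ × ℤ)} {v x : ℤ × ℤ} (hx : x ∈ B.erase v) :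
    IsPolyomino (comp B v x) := by
  refine isPoly_of x (mem_comp.mpr ⟨hx, .refl⟩) ?_
  intro a ha
  exact ch_symm (ch_comp (mem_comp.mp ha).2)

theorem reach_nb {B : Finset (ℤ × ℤ)} (hB : IsPolyomino B) {v : ℤ × ℤ} (hv : v ∈ B) {y : ℤ × ℤ}
    (hy : y ∈ B.erase v) : ∃ w, Ch (B.erase v) y w ∧ w ∈ B.erase v ∧ Adj w v := by
  have h := hB.2 y (mem_of_mem_erase hy) v hv
  have key : y = v ∨ ∃ w, Ch (B.erase v) y w ∧ w ∈ B.erase v ∧ Adj w v := by
    induction h using Relation.ReflTransGen.head_induction_on with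
    | refl => exact Or.inl rfl
    | @head a c hac _ ih =>
      by_cases hav : a = v
      · exact Or.inl hav
      · right
        have haB : a ∈ B.erase v := mem_erase.mpr ⟨hav, hac.1⟩
        by_cases hcv : c = v
        · subst hcv
          exact ⟨a, .refl, haB, hac.2.2⟩
        · have hcB : c ∈ B.erase v := mem_erase.mpr ⟨hcv, hac.2.1⟩
          rcases ih hcB with h | ⟨w, h1, h2, h3⟩
          · exact absurd h hcv
          · exact ⟨w, .head ⟨haB, hcB, hac.2.2⟩ h1, h2, h3⟩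
  rcases key with h | h
  · exact absurd h (ne_of_mem_erase hy)
  · exact h

theorem sdiff_comp_poly {B : Finset (ℤ × ℤ)} (hB : IsPolyomino B) {v : ℤ × ℤ} (hv : v ∈ B)
    (x : ℤ × ℤ) : IsPolyomino (B \ comp B v x) := by
  have hvc : v ∉ comp B v x := fun h => (notMem_erase v B) (mem_comp.mp h).1
  have hv' : v ∈ B \ comp B v x := mem_sdiff.mpr ⟨hv, hvc⟩
  refine isPoly_of v hv' ?_
  intro y hy
  obtain ⟨hyB, hyc⟩ := mem_sdiff.mp hy
  by_cases hyv : y = v
  · subst hyv; exact .refl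
  have hyE : y ∈ B.erase v := mem_erase.mpr ⟨hyv, hyB⟩
  obtain ⟨w, hw, hwE, hwv⟩ := reach_nb hB hv hyE
  -- the chain avoids the component
  have hav : ∀ z, Ch (B.erase v) y z → z ∈ B.erase v → z ∉ comp B v x := by
    intro z hz _ hzc
    exact hyc (mem_comp.mpr ⟨hyE, (mem_comp.mp hzc).2.trans (ch_symm hz)⟩)
  have hch : ∀ z, Ch (B.erase v) y z → Ch (B \ comp B v x) y z := by
    intro z hz
    induction hz with
    | refl => exact .refl
    | @tail b c hyb hbc ih =>
      refine ih.tail ⟨?_, ?_, hbc.2.2⟩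
      · exact mem_sdiff.mpr ⟨mem_of_mem_erase hbc.1, hav _ hyb hbc.1⟩
      · exact mem_sdiff.mpr ⟨mem_of_mem_erase hbc.2.1, hav _ (hyb.tail hbc) hbc.2.1⟩
  refine (hch w hw).tail ⟨?_, hv', hwv⟩
  exact mem_sdiff.mpr ⟨mem_of_mem_erase hwE, hav _ hw hwE⟩

/-- a polyomino cut in two parts has adjacent cells in the parts -/
theorem exists_adj {S A : Finset (ℤ × ℤ)} (hS : IsPolyomino S) (hA : A ⊆ S) {a b : ℤ × ℤ}
    (ha : a ∈ A) (hb : b ∈ S) (hbA : b ∉ A) : ∃ u ∈ A, ∃ w ∈ S, w ∉ A ∧ Adj u w := by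
  have h := hS.2 a (hA ha) b hb
  by_contra hcon
  push Not at hcon
  have key : ∀ z, Ch S a z → z ∈ A := by
    intro z hz
    induction hz with
    | refl => exact ha
    | @tail x y _ hxy ih =>
      by_contra hy
      exact hcon x ih y hxy.2.1 hy hxy.2.2
  exact hbA (key b h)

/-- splitting a polyomino in two connected parts which are not too small -/
theorem split {S : Finset (ℤ × ℤ)} (hS : IsPolyomino S) (h2 : 2 ≤ S.card) :
    ∃ A B : Finset (ℤ × ℤ), A ∪ B = S ∧ Disjoint A B ∧ IsPolyomino A ∧ IsPolyomino B ∧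
      S.card ≤ 4 * A.card + 1 ∧ A.card ≤ B.card ∧ ∃ u ∈ A, ∃ w ∈ B, Adj u w := by
  classical
  let F := S.powerset.filter (fun A => IsPolyomino A ∧ IsPolyomino (S \ A) ∧
    A.card ≤ (S \ A).card)
  have hmemF : ∀ A, A ∈ F ↔ A ⊆ S ∧ IsPolyomino A ∧ IsPolyomino (S \ A) ∧
    A.card ≤ (S \ A).card := by
    intro A; simp [F]
  -- either a set or its complement
  have hor : ∀ A, A ⊆ S → IsPolyomino A → IsPolyomino (S \ A) →
      (A ∈ F) ∨ ((S \ A) ∈ F) := by
    intro A hAS hA hA'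
    rcases le_total A.card (S \ A).card with h | h
    · left; exact (hmemF A).mpr ⟨hAS, hA, hA', h⟩
    · right
      refine (hmemF _).mpr ⟨sdiff_subset, hA', ?_, ?_⟩
      · rwa [Finset.sdiff_sdiff_eq_self hAS]
      · rwa [Finset.sdiff_sdiff_eq_self hAS]
  have hFne : F.Nonempty := by
    obtain ⟨v, hv⟩ := hS.1
    have hne : (S.erase v).Nonempty := by
      rw [← card_pos, card_erase_of_mem hv]; omega
    obtain ⟨x, hx⟩ := hne
    have hsub : comp S v x ⊆ S := fun y hy => mem_of_mem_erase (mem_comp.mp hy).1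
    rcases hor _ hsub (comp_poly hx) (sdiff_comp_poly hS hv x) with h | h
    · exact ⟨_, h⟩
    · exact ⟨_, h⟩
  obtain ⟨A, hAF, hmax⟩ := exists_max_image F card hFne
  obtain ⟨hAS, hA, hB, hAB⟩ := (hmemF A).mp hAF
  set B := S \ A with hBdef
  have hunion : A ∪ B = S := by rw [hBdef]; exact union_sdiff_of_subset hAS
  have hdisj : Disjoint A B := disjoint_sdiff
  have hcard : A.card + B.card = S.card := by
    rw [← card_union_of_disjoint hdisj, hunion]
  obtain ⟨a, ha⟩ := hA.1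
  obtain ⟨b, hb⟩ := hB.1
  obtain ⟨u, hu, w, hwS, hwA, huw⟩ := exists_adj hS hAS ha (mem_sdiff.mp hb).1 (mem_sdiff.mp hb).2
  have hwB : w ∈ B := mem_sdiff.mpr ⟨hwS, hwA⟩
  refine ⟨A, B, hunion, hdisj, hA, hB, ?_, hAB, u, hu, w, hwB, huw⟩
  by_contra hlt
  push Not at hlt
  -- the neighbours of `w` in `B`
  have hcov : B.erase w ⊆ ((nb w).erase u).biUnion (fun x => comp B w x) := by
    intro y hy
    obtain ⟨x, hx1, hx2, hx3⟩ := reach_nb hB hwB hy
    rw [mem_biUnion]
    refine ⟨x, mem_erase.mpr ⟨?_, mem_nb.mpr (adj_symm hx3)⟩, mem_comp.mpr ⟨hy, ch_symm hx1⟩⟩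
    rintro rfl
    exact (disjoint_left.mp hdisj) hu (mem_of_mem_erase hx2)
  have hune : u ∈ nb w := mem_nb.mpr (adj_symm huw)
  have h3 : ((nb w).erase u).card ≤ 3 := by
    rw [card_erase_of_mem hune]
    have := card_nb w
    omega
  have hne3 : ((nb w).erase u).Nonempty := by
    by_contra hne
    rw [not_nonempty_iff_eq_empty] at hne
    rw [hne, biUnion_empty] at hcov
    have h1 : B.erase w = ∅ := subset_empty.mp hcov
    have h2 : (B.erase w).card = 0 := by rw [h1]; rfl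
    rw [card_erase_of_mem hwB] at h2
    have := card_pos.mpr hA.1
    omega
  obtain ⟨x, hx, hxmax⟩ := exists_max_image ((nb w).erase u) (fun x => (comp B w x).card) hne3
  have hcardB : B.card - 1 ≤ 3 * (comp B w x).card := by
    rw [← card_erase_of_mem hwB]
    calc (B.erase w).card ≤ (((nb w).erase u).biUnion (fun x => comp B w x)).card :=
          card_le_card hcov
      _ ≤ ∑ y ∈ (nb w).erase u, (comp B w y).card := card_biUnion_le
      _ ≤ ∑ _y ∈ (nb w).erase u, (comp B w x).card := sum_le_sum (fun y hy => hxmax y hy)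
      _ = ((nb w).erase u).card * (comp B w x).card := by rw [sum_const, smul_eq_mul]
      _ ≤ 3 * (comp B w x).card := Nat.mul_le_mul_right _ h3
  have hApos := card_pos.mpr hA.1
  have hCpos : 0 < (comp B w x).card := by omega
  obtain ⟨y, hy⟩ := card_pos.mp hCpos
  set C := comp B w x with hC
  have hxE : x ∈ B.erase w := by
    have h1 := mem_comp.mp hy
    rcases Relation.ReflTransGen.cases_head h1.2 with h | ⟨c, hc, _⟩
    · rw [h]; exact h1.1
    · exact hc.1
  have hCB : C ⊆ B := fun z hz => mem_of_mem_erase (mem_comp.mp hz).1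
  have hCS : C ⊆ S := hCB.trans sdiff_subset
  have hSC : S \ C = A ∪ (B \ C) := by
    ext z
    simp only [mem_sdiff, mem_union, ← hunion]
    constructor
    · rintro ⟨h | h, h'⟩
      · exact Or.inl h
      · exact Or.inr ⟨h, h'⟩
    · rintro (h | ⟨h, h'⟩)
      · exact ⟨Or.inl h, fun h' => (disjoint_left.mp hdisj) h (hCB h')⟩
      · exact ⟨Or.inr h, h'⟩
  have hwC : w ∉ C := fun h => (notMem_erase w B) (mem_comp.mp h).1
  have hA' : IsPolyomino (S \ C) := by
    rw [hSC]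
    exact isPoly_union hA (sdiff_comp_poly hB hwB x) hu (mem_sdiff.mpr ⟨hwB, hwC⟩) huw
  have hcardSC : (S \ C).card = A.card + (B \ C).card := by
    rw [hSC, card_union_of_disjoint]
    exact hdisj.mono_right sdiff_subset
  have hBCpos : 0 < (B \ C).card := card_pos.mpr ⟨w, mem_sdiff.mpr ⟨hwB, hwC⟩⟩
  rcases hor C hCS (comp_poly hxE) hA' with h | h
  · have := hmax _ h
    omega
  · have := hmax _ h
    omega

end split

end Pool.Agent.W219.Klarner
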