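import Pool.Agent.W219.Klarner.Growth

set_option autoImplicit false

namespace Pool.Agent.W219.Klarner

open Finset

section prim

variable {β : Type*} [Primcodable β]

theorem pr_pow : Primrec₂ ((· ^ ·) : ℕ → ℕ → ℕ) := Primrec₂.unpaired'.1 Nat.Primrec.pow

theorem pr_exists {f : β → ℕ} (hf : Primrec f) {P : β → ℕ → Prop}
    (hP : PrimrecPred fun q : β × ℕ => P q.1 q.2) : PrimrecPred fun b => ∃ x < f b, P b x := by
  have h1 : PrimrecRel fun (x : ℕ) (b : β) => P b x :=
    hP.comp (Primrec.pair Primrec.snd Primrec.fst)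
  have h2 := (h1.exists_mem_list).comp (Primrec.list_range.comp hf) (Primrec.id (α := β))
  exact h2.of_eq (by intro b; simp)

theorem pr_forall {f : β → ℕ} (hf : Primrec f) {P : β → ℕ → Prop}
    (hP : PrimrecPred fun q : β × ℕ => P q.1 q.2) : PrimrecPred fun b => ∀ x < f b, P b x := by
  have h1 : PrimrecRel fun (x : ℕ) (b : β) => P b x :=
    hP.comp (Primrec.pair Primrec.snd Primrec.fst)
  have h2 := (h1.forall_mem_list).comp (Primrec.list_range.comp hf) (Primrec.id (α := β))
  exact h2.of_eq (by intro b; simp)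

theorem len_eq (k : ℕ) (p : ℕ → Prop) [DecidablePred p] :
    ((List.range k).filter (fun x => decide (p x))).length = ((Finset.range k).filter p).card := by
  rw [← Nat.count_eq_card_filter_range, Nat.count, List.countP_eq_length_filter]

open Classical in
theorem pr_count {f : β → ℕ} (hf : Primrec f) {P : β → ℕ → Prop}
    (hP : PrimrecPred fun q : β × ℕ => P q.1 q.2) :
    Primrec fun b => ((Finset.range (f b)).filter (P b)).card := by
  have h1 : PrimrecRel fun (x : ℕ) (b : β) => P b x :=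
    hP.comp (Primrec.pair Primrec.snd Primrec.fst)
  have h2 := (h1.listFilter).comp (Primrec.list_range.comp hf) (Primrec.id (α := β))
  have h3 := Primrec.list_length.comp h2
  refine h3.of_eq (fun b => ?_)
  rw [← len_eq]
  simp

theorem pr_imp {p q : β → Prop} (hp : PrimrecPred p) (hq : PrimrecPred q) :
    PrimrecPred fun b => p b → q b :=
  (hp.not.or hq).of_eq (fun b => by tauto)

end prim

/-- the binary digit number `c` of `m` is `1` -/
def Bit (m c : ℕ) : Prop := m / 2 ^ c % 2 = 1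

instance (m : ℕ) : DecidablePred (Bit m) := fun c =>
  inferInstanceAs (Decidable (m / 2 ^ c % 2 = 1))

theorem bit_iff (m c : ℕ) : Bit m c ↔ m.testBit c = true := by
  unfold Bit
  rw [Nat.testBit_eq_decide_div_mod_eq]
  simp

/-- adjacency for the coding `c ↦ (c / n, c % n)` of the cells -/
def AdjN (n c d : ℕ) : Prop :=
  (c / n = d / n ∧ (c % n + 1 = d % n ∨ d % n + 1 = c % n)) ∨
    (c % n = d % n ∧ (c / n + 1 = d / n ∨ d / n + 1 = c / n))

/-- `m` codes a normalised polyomino with `n` cells -/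
def Good (n m : ℕ) : Prop :=
  (((Finset.range (n * n)).filter (Bit m)).card = n ∧ (∃ c < n * n, Bit m c ∧ c / n = 0) ∧
    (∃ c < n * n, Bit m c ∧ c % n = 0)) ∧
  ∀ m' < 2 ^ (n * n), (∀ c < n * n, Bit m' c → Bit m c) → (∃ c < n * n, Bit m' c) →
    (∀ c < n * n, Bit m' c → ∀ d < n * n, Bit m d → AdjN n c d → Bit m' d) →
    ∀ c < n * n, Bit m c → Bit m' c

section prim2

variable {β : Type*} [Primcodable β]

open Primrec

theorem pr_bit {f g : β → ℕ} (hf : Primrec f) (hg : Primrec g) :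
    PrimrecPred fun b => Bit (f b) (g b) :=
  Primrec.eq.comp (nat_mod.comp (nat_div.comp hf (pr_pow.comp (.const 2) hg)) (.const 2)) (.const 1)

theorem pr_adj {f g h : β → ℕ} (hf : Primrec f) (hg : Primrec g) (hh : Primrec h) :
    PrimrecPred fun b => AdjN (f b) (g b) (h b) := by
  have d1 := nat_div.comp hg hf
  have d2 := nat_div.comp hh hf
  have m1 := nat_mod.comp hg hf
  have m2 := nat_mod.comp hh hf
  have one : Primrec fun _ : β => 1 := .const 1
  exact PrimrecPred.or
    (PrimrecPred.and (Primrec.eq.comp d1 d2)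
      (PrimrecPred.or (Primrec.eq.comp (nat_add.comp m1 one) m2)
        (Primrec.eq.comp (nat_add.comp m2 one) m1)))
    (PrimrecPred.and (Primrec.eq.comp m1 m2)
      (PrimrecPred.or (Primrec.eq.comp (nat_add.comp d1 one) d2)
        (Primrec.eq.comp (nat_add.comp d2 one) d1)))

theorem pr_good : PrimrecRel Good := by
  -- parameters `(n, m)`
  have n1 : Primrec fun p : ℕ × ℕ => p.1 := fst
  have m1 : Primrec fun p : ℕ × ℕ => p.2 := snd
  have nn1 : Primrec fun p : ℕ × ℕ => p.1 * p.1 := nat_mul.comp n1 n1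
  have g1 : PrimrecPred fun p : ℕ × ℕ =>
      ((Finset.range (p.1 * p.1)).filter (Bit p.2)).card = p.1 := by
    refine (Primrec.eq.comp (pr_count nn1 (P := fun p c => Bit p.2 c)
      (pr_bit (snd.comp fst) snd)) n1).of_eq (fun p => ?_)
    constructor
    · intro h; rw [← h]; congr
    · intro h; rw [← h]; congr
  have g2 : PrimrecPred fun p : ℕ × ℕ => ∃ c < p.1 * p.1, Bit p.2 c ∧ c / p.1 = 0 :=
    pr_exists nn1 (P := fun p c => Bit p.2 c ∧ c / p.1 = 0)
      ((pr_bit (snd.comp fst) snd).and (Primrec.eq.comp (nat_div.comp snd (fst.comp fst)) (.const 0)))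
  have g3 : PrimrecPred fun p : ℕ × ℕ => ∃ c < p.1 * p.1, Bit p.2 c ∧ c % p.1 = 0 :=
    pr_exists nn1 (P := fun p c => Bit p.2 c ∧ c % p.1 = 0)
      ((pr_bit (snd.comp fst) snd).and (Primrec.eq.comp (nat_mod.comp snd (fst.comp fst)) (.const 0)))
  have g4 : PrimrecPred fun p : ℕ × ℕ =>
      ∀ m' < 2 ^ (p.1 * p.1), (∀ c < p.1 * p.1, Bit m' c → Bit p.2 c) →
      (∃ c < p.1 * p.1, Bit m' c) →
      (∀ c < p.1 * p.1, Bit m' c → ∀ d < p.1 * p.1, Bit p.2 d → AdjN p.1 c d → Bit m' d) →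
      ∀ c < p.1 * p.1, Bit p.2 c → Bit m' c := by
    refine pr_forall (pr_pow.comp (.const 2) nn1) (P := fun p m' =>
      (∀ c < p.1 * p.1, Bit m' c → Bit p.2 c) →
      (∃ c < p.1 * p.1, Bit m' c) →
      (∀ c < p.1 * p.1, Bit m' c → ∀ d < p.1 * p.1, Bit p.2 d → AdjN p.1 c d → Bit m' d) →
      ∀ c < p.1 * p.1, Bit p.2 c → Bit m' c) ?_
    -- parameters `((n, m), m')`
    have nn2 : Primrec fun q : (ℕ × ℕ) × ℕ => q.1.1 * q.1.1 :=
      nat_mul.comp (fst.comp fst) (fst.comp fst)
    refine pr_imp ?_ (pr_imp ?_ (pr_imp ?_ ?_))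
    · exact pr_forall nn2 (P := fun q c => Bit q.2 c → Bit q.1.2 c)
        (pr_imp (pr_bit (snd.comp fst) snd) (pr_bit (snd.comp (fst.comp fst)) snd))
    · exact pr_exists nn2 (P := fun q c => Bit q.2 c) (pr_bit (snd.comp fst) snd)
    · refine pr_forall nn2 (P := fun q c => Bit q.2 c →
        ∀ d < q.1.1 * q.1.1, Bit q.1.2 d → AdjN q.1.1 c d → Bit q.2 d) ?_
      refine pr_imp (pr_bit (snd.comp fst) snd) ?_
      -- parameters `(((n, m), m'), c)`
      refine pr_forall (nat_mul.comp (fst.comp (fst.comp fst)) (fst.comp (fst.comp fst)))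
        (P := fun (r : ((ℕ × ℕ) × ℕ) × ℕ) d =>
          Bit r.1.1.2 d → AdjN r.1.1.1 r.2 d → Bit r.1.2 d) ?_
      exact pr_imp (pr_bit (snd.comp (fst.comp (fst.comp fst))) snd)
        (pr_imp (pr_adj (fst.comp (fst.comp (fst.comp fst))) (snd.comp fst) snd)
          (pr_bit (snd.comp (fst.comp fst)) snd))
    · exact pr_forall nn2 (P := fun q c => Bit q.1.2 c → Bit q.2 c)
        (pr_imp (pr_bit (snd.comp (fst.comp fst)) snd) (pr_bit (snd.comp fst) snd))
  exact ((g1.and (g2.and g3)).and g4).of_eq (fun p => Iff.rfl)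

end prim2

/-- the cell coded by `c` -/
def cell (n c : ℕ) : ℤ × ℤ := (((c / n : ℕ) : ℤ), ((c % n : ℕ) : ℤ))

theorem cell_inj {n c d : ℕ} (h : cell n c = cell n d) : c = d := by
  unfold cell at h
  simp only [Prod.mk.injEq, Nat.cast_inj] at h
  rw [← Nat.div_add_mod c n, ← Nat.div_add_mod d n, h.1, h.2]

theorem adj_cell {n c d : ℕ} : Adj (cell n c) (cell n d) ↔ AdjN n c d := by
  unfold Adj AdjN cell
  simp only
  generalize c / n = a
  generalize c % n = b
  generalize d / n = e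
  generalize d % n = f
  constructor
  · intro h
    rcases abs_cases ((a : ℤ) - e) with h1 | h1 <;> rcases abs_cases ((b : ℤ) - f) with h2 | h2 <;>
      omega
  · intro h
    rcases abs_cases ((a : ℤ) - e) with h1 | h1 <;> rcases abs_cases ((b : ℤ) - f) with h2 | h2 <;>
      omega

theorem exists_code (k : ℕ) (F : ℕ → Prop) : ∃ m < 2 ^ k, ∀ c < k, (Bit m c ↔ F c) := by
  classical
  induction k with
  | zero => exact ⟨0, by simp, by simp⟩
  | succ k ih =>
    obtain ⟨m, hm, h⟩ := ih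
    by_cases hF : F k
    · refine ⟨2 ^ k + m, by rw [pow_succ]; omega, ?_⟩
      intro c hc
      rcases Nat.lt_succ_iff_lt_or_eq.mp hc with hc | rfl
      · rw [bit_iff, Nat.testBit_two_pow_add_gt hc, ← bit_iff]; exact h c hc
      · rw [bit_iff, Nat.testBit_two_pow_add_eq, Nat.testBit_lt_two_pow hm]
        simpa using hF
    · refine ⟨m, by rw [pow_succ]; omega, ?_⟩
      intro c hc
      rcases Nat.lt_succ_iff_lt_or_eq.mp hc with hc | rfl
      · exact h c hc
      · rw [bit_iff, Nat.testBit_lt_two_pow hm]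
        simpa using hF

theorem code_ext {k m m' : ℕ} (hm : m < 2 ^ k) (hm' : m' < 2 ^ k)
    (h : ∀ c < k, (Bit m c ↔ Bit m' c)) : m = m' := by
  apply Nat.eq_of_testBit_eq
  intro c
  by_cases hc : c < k
  · have := h c hc
    rw [bit_iff, bit_iff] at this
    exact Bool.eq_iff_iff.mpr this
  · have hk : 2 ^ k ≤ 2 ^ c := Nat.pow_le_pow_right (by norm_num) (by omega)
    rw [Nat.testBit_lt_two_pow (lt_of_lt_of_le hm hk),
      Nat.testBit_lt_two_pow (lt_of_lt_of_le hm' hk)]

open Classical in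
/-- the set coded by `m` -/
noncomputable def D (n m : ℕ) : Finset (ℤ × ℤ) :=
  ((Finset.range (n * n)).filter (Bit m)).image (cell n)

theorem mem_D {n m : ℕ} {a : ℤ × ℤ} : a ∈ D n m ↔ ∃ c < n * n, Bit m c ∧ cell n c = a := by
  classical
  unfold D
  rw [mem_image]
  constructor
  · rintro ⟨c, hc, rfl⟩
    rw [mem_filter, mem_range] at hc
    exact ⟨c, hc.1, hc.2, rfl⟩
  · rintro ⟨c, h1, h2, rfl⟩
    exact ⟨c, by rw [mem_filter, mem_range]; exact ⟨h1, h2⟩, rfl⟩

theorem card_D (n m : ℕ) [DecidablePred (Bit m)] :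
    (D n m).card = ((Finset.range (n * n)).filter (Bit m)).card := by
  classical
  unfold D
  rw [card_image_of_injective _ (fun c d h => cell_inj h)]
  congr

theorem good_iff {n m : ℕ} : Good n m ↔ D n m ∈ N n := by
  classical
  rw [mem_N]
  have hcell : ∀ c < n * n, c / n < n := fun c hc => Nat.div_lt_of_lt_mul hc
  constructor
  · rintro ⟨⟨h1, ⟨c1, hc1, hb1, hd1⟩, ⟨c2, hc2, hb2, hd2⟩⟩, h4⟩
    refine ⟨⟨⟨cell n c1, mem_D.mpr ⟨c1, hc1, hb1, rfl⟩⟩, ?_⟩, ?_, ?_, ?_, ?_⟩
    · intro a ha b hb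
      obtain ⟨ca, hca, hba, rfl⟩ := mem_D.mp ha
      obtain ⟨cb, hcb, hbb, rfl⟩ := mem_D.mp hb
      obtain ⟨m', hm', hF⟩ := exists_code (n * n)
        (fun c => Bit m c ∧ Ch (D n m) (cell n ca) (cell n c))
      have h5 := h4 m' hm' (fun c hc h => ((hF c hc).mp h).1)
        ⟨ca, hca, (hF ca hca).mpr ⟨hba, .refl⟩⟩ (by
          intro c hc hbc d hd hbd hadj
          refine (hF d hd).mpr ⟨hbd, ((hF c hc).mp hbc).2.tail ⟨?_, ?_, adj_cell.mpr hadj⟩⟩
          · exact mem_D.mpr ⟨c, hc, ((hF c hc).mp hbc).1, rfl⟩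
          · exact mem_D.mpr ⟨d, hd, hbd, rfl⟩) cb hcb hbb
      exact ((hF cb hcb).mp h5).2
    · rw [card_D]; convert h1
    · intro a ha
      obtain ⟨c, _, _, rfl⟩ := mem_D.mp ha
      exact ⟨Int.natCast_nonneg _, Int.natCast_nonneg _⟩
    · exact ⟨cell n c1, mem_D.mpr ⟨c1, hc1, hb1, rfl⟩, by unfold cell; simp only; omega⟩
    · exact ⟨cell n c2, mem_D.mpr ⟨c2, hc2, hb2, rfl⟩, by unfold cell; simp only; omega⟩
  · rintro ⟨hP, hcard, hN0, ⟨a, ha, ha0⟩, ⟨b, hb, hb0⟩⟩
    obtain ⟨c1, hc1, hb1, rfl⟩ := mem_D.mp ha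
    obtain ⟨c2, hc2, hb2, rfl⟩ := mem_D.mp hb
    refine ⟨⟨?_, ⟨c1, hc1, hb1, ?_⟩, ⟨c2, hc2, hb2, ?_⟩⟩, ?_⟩
    · rw [card_D] at hcard; convert hcard
    · unfold cell at ha0; simp only at ha0; omega
    · unfold cell at hb0; simp only at hb0; omega
    · intro m' _ hsub hne hcl c hc hbc
      obtain ⟨c0, hc0, hb0'⟩ := hne
      have hch := hP.2 (cell n c0) (mem_D.mpr ⟨c0, hc0, hsub c0 hc0 hb0', rfl⟩) (cell n c)
        (mem_D.mpr ⟨c, hc, hbc, rfl⟩)
      have key : ∀ z, Ch (D n m) (cell n c0) z → ∃ e < n * n, Bit m' e ∧ cell n e = z := by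
        intro z hz
        induction hz with
        | refl => exact ⟨c0, hc0, hb0', rfl⟩
        | @tail x y _ hxy ih =>
          obtain ⟨e, he, hbe, rfl⟩ := ih
          obtain ⟨f, hf, hbf, rfl⟩ := mem_D.mp hxy.2.1
          exact ⟨f, hf, hcl e he hbe f hf hbf (adj_cell.mp hxy.2.2), rfl⟩
      obtain ⟨e, _, hbe, hee⟩ := key _ hch
      rw [← cell_inj hee]; exact hbe

open Classical in
theorem t_eq_count (n : ℕ) : t n = ((Finset.range (2 ^ (n * n))).filter (Good n)).card := by
  rw [t_eq]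
  symm
  refine card_bij (fun m _ => D n m) ?_ ?_ ?_
  · intro m hm
    exact good_iff.mp (mem_filter.mp hm).2
  · intro m hm m' hm' h
    have h1 := mem_range.mp (mem_filter.mp hm).1
    have h2 := mem_range.mp (mem_filter.mp hm').1
    refine code_ext h1 h2 (fun c hc => ?_)
    constructor
    · intro hb
      have : cell n c ∈ D n m' := by rw [← h]; exact mem_D.mpr ⟨c, hc, hb, rfl⟩
      obtain ⟨d, _, hd, hdc⟩ := mem_D.mp this
      rw [← cell_inj hdc]; exact hd
    · intro hb
      have : cell n c ∈ D n m := by rw [h]; exact mem_D.mpr ⟨c, hc, hb, rfl⟩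
      obtain ⟨d, _, hd, hdc⟩ := mem_D.mp this
      rw [← cell_inj hdc]; exact hd
  · intro S hS
    obtain ⟨hP, hcard, hN⟩ := mem_N.mp hS
    obtain ⟨m, hm, hF⟩ := exists_code (n * n) (fun c => cell n c ∈ S)
    have hD : D n m = S := by
      ext a
      rw [mem_D]
      constructor
      · rintro ⟨c, hc, hb, rfl⟩; exact (hF c hc).mp hb
      · intro ha
        have b1 := bound1 hP hN ha
        have b2 := bound2 hP hN ha
        have b3 := hN.1 a ha
        rw [hcard] at b1 b2
        obtain ⟨x, hx⟩ := Int.eq_ofNat_of_zero_le b3.1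
        obtain ⟨y, hy⟩ := Int.eq_ofNat_of_zero_le b3.2
        have hxn : x < n := by omega
        have hyn : y < n := by omega
        have hlt : n * x + y < n * n := by nlinarith
        have hce : cell n (n * x + y) = a := by
          unfold cell
          have e1 : (n * x + y) / n = x := by
            rw [Nat.mul_add_div (by omega), Nat.div_eq_of_lt hyn, add_zero]
          have e2 : (n * x + y) % n = y := by
            rw [Nat.mul_add_mod, Nat.mod_eq_of_lt hyn]
          rw [e1, e2]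
          exact Prod.ext hx.symm hy.symm
        exact ⟨n * x + y, hlt, (hF _ hlt).mpr (by rw [hce]; exact ha), hce⟩
    refine ⟨m, ?_, hD⟩
    rw [mem_filter, mem_range]
    exact ⟨hm, good_iff.mpr (by rw [hD]; exact hS)⟩

/-- the number of fixed `n`-ominoes is a primitive recursive function -/
theorem pr_t : Primrec t := by
  classical
  have h := pr_count (f := fun n : ℕ => 2 ^ (n * n))
    (pr_pow.comp (.const 2) (Primrec.nat_mul.comp .id .id)) (P := Good) pr_good
  exact h.of_eq (fun n => (t_eq_count n).symm)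

end Pool.Agent.W219.Klarner
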