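import Mathlib

/-!
# Fixed polyominoes on the square lattice: definitions
-/

set_option autoImplicit false

namespace Pool.Agent.W219.Klarner

/-- two cells of the square lattice (labelled by `ℤ × ℤ`) share an edge -/
def Adj (a b : ℤ × ℤ) : Prop := |a.1 - b.1| + |a.2 - b.2| = 1

/-- a finite nonempty set of cells which is connected under edge-adjacency: any two of its cells
are joined by a sequence of cells of the set in which consecutive cells share an edge -/
def IsPolyomino (S : Finset (ℤ × ℤ)) : Prop :=
  S.Nonempty ∧ ∀ a ∈ S, ∀ b ∈ S,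
    Relation.ReflTransGen (fun x y => x ∈ S ∧ y ∈ S ∧ Adj x y) a b

/-- the translate of `S` by the vector `v` -/
def translate (v : ℤ × ℤ) (S : Finset (ℤ × ℤ)) : Finset (ℤ × ℤ) := S.image (fun a => a + v)

/-- the fixed `n`-ominoes: the classes of connected sets of `n` cells modulo translations -/
def fixedOminoes (n : ℕ) : Set (Set (Finset (ℤ × ℤ))) :=
  {C | ∃ S, IsPolyomino S ∧ S.card = n ∧ C = {T | ∃ v, T = translate v S}}

/-- `t n` is the number of fixed `n`-ominoes -/
noncomputable def t (n : ℕ) : ℕ := (fixedOminoes n).ncard

end Pool.Agent.W219.Klarner
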