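import Pool.Agent.W219.Klarner.Norm

set_option autoImplicit false

namespace Pool.Agent.W219.Klarner

open Finset Filter

/-- the criterion for upper bounds of the growth constant -/
theorem crit (K : ℕ) (hK : 1 ≤ K) (μ : ℝ) (hμ : 0 ≤ μ)
    (h : ∀ s : ℕ, K ≤ s → s ≤ 4 * K → 4000 * (s : ℝ) ^ 4 * t s ≤ μ ^ s) :
    ∀ n : ℕ, K ≤ n → 4000 * (n : ℝ) ^ 4 * t n ≤ μ ^ n := by
  intro n
  induction n using Nat.strong_induction_on with
  | _ n ih =>
  intro hn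
  by_cases h4 : n ≤ 4 * K
  · exact h n hn h4
  push Not at h4
  have hn0 : (0 : ℝ) < n := by exact_mod_cast (by omega : 0 < n)
  set I := (Finset.range n).filter (fun a => n ≤ 4 * a + 1 ∧ 2 * a ≤ n) with hI
  have hterm : ∀ a ∈ I, 4000 * (n : ℝ) ^ 4 * ((t a * t (n - a) * (a * (n - a) * 4) : ℕ) : ℝ) ≤
      μ ^ n / n := by
    intro a ha
    rw [hI, mem_filter, mem_range] at ha
    obtain ⟨ha1, ha2, ha3⟩ := ha
    set b := n - a with hb
    have hab : a + b = n := by omega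
    have h1 := ih a ha1 (by omega)
    have h2 := ih b (by omega) (by omega)
    have ha5 : (n : ℝ) ≤ 5 * a := by exact_mod_cast (by omega : n ≤ 5 * a)
    have hb2 : (n : ℝ) ≤ 2 * b := by exact_mod_cast (by omega : n ≤ 2 * b)
    have ha0 : (0 : ℝ) < a := by linarith
    have hb0 : (0 : ℝ) < b := by linarith
    have h10 : (n : ℝ) ^ 2 ≤ 10 * (a * b) := by nlinarith
    have h11 : (n : ℝ) ^ 6 ≤ 1000 * ((a : ℝ) ^ 3 * (b : ℝ) ^ 3) := by
      have := pow_le_pow_left₀ (by positivity) h10 3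
      calc (n : ℝ) ^ 6 = ((n : ℝ) ^ 2) ^ 3 := by ring
        _ ≤ (10 * ((a : ℝ) * b)) ^ 3 := this
        _ = 1000 * ((a : ℝ) ^ 3 * (b : ℝ) ^ 3) := by ring
    have hn1 : (1 : ℝ) ≤ n := by exact_mod_cast (by omega : 1 ≤ n)
    have hprod : (4000 * (a : ℝ) ^ 4 * t a) * (4000 * (b : ℝ) ^ 4 * t b) ≤ μ ^ n := by
      rw [← hab, pow_add]
      exact mul_le_mul h1 h2 (by positivity) (by positivity)
    rw [le_div_iff₀ hn0]
    refine le_trans ?_ hprod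
    push_cast
    have hT : (0 : ℝ) ≤ (t a : ℝ) * t b := by positivity
    have hkey : (n : ℝ) ^ 5 * (4 * 4000) * (a * b) ≤ 4000 * 4000 * ((a : ℝ) ^ 4 * (b : ℝ) ^ 4) := by
      have e1 : (n : ℝ) ^ 5 ≤ (n : ℝ) ^ 6 := pow_le_pow_right₀ hn1 (by norm_num)
      have e2 : (n : ℝ) ^ 5 ≤ 1000 * ((a : ℝ) ^ 3 * (b : ℝ) ^ 3) := e1.trans h11
      have e3 : (0 : ℝ) ≤ (4 * 4000) * (a * b) := by positivity
      calc (n : ℝ) ^ 5 * (4 * 4000) * (a * b) = (n : ℝ) ^ 5 * ((4 * 4000) * (a * b)) := by ring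
        _ ≤ (1000 * ((a : ℝ) ^ 3 * (b : ℝ) ^ 3)) * ((4 * 4000) * (a * b)) :=
            mul_le_mul_of_nonneg_right e2 e3
        _ = 4000 * 4000 * ((a : ℝ) ^ 4 * (b : ℝ) ^ 4) := by ring
    calc 4000 * (n : ℝ) ^ 4 * ((t a : ℝ) * t b * (a * b * 4)) * n
        = ((n : ℝ) ^ 5 * (4 * 4000) * (a * b)) * ((t a : ℝ) * t b) := by ring
      _ ≤ (4000 * 4000 * ((a : ℝ) ^ 4 * (b : ℝ) ^ 4)) * ((t a : ℝ) * t b) :=
          mul_le_mul_of_nonneg_right hkey hT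
      _ = 4000 * (a : ℝ) ^ 4 * t a * (4000 * (b : ℝ) ^ 4 * t b) := by ring
  have hs := t_split n (by omega)
  have hs' : (t n : ℝ) ≤ ∑ a ∈ I, ((t a * t (n - a) * (a * (n - a) * 4) : ℕ) : ℝ) := by
    exact_mod_cast hs
  have hcard : (I.card : ℝ) ≤ n := by
    have := card_filter_le (Finset.range n) (fun a => n ≤ 4 * a + 1 ∧ 2 * a ≤ n)
    rw [card_range] at this
    exact_mod_cast this
  calc 4000 * (n : ℝ) ^ 4 * t n
      ≤ 4000 * (n : ℝ) ^ 4 * ∑ a ∈ I, ((t a * t (n - a) * (a * (n - a) * 4) : ℕ) : ℝ) :=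
        mul_le_mul_of_nonneg_left hs' (by positivity)
    _ = ∑ a ∈ I, 4000 * (n : ℝ) ^ 4 * ((t a * t (n - a) * (a * (n - a) * 4) : ℕ) : ℝ) := by
        rw [mul_sum]
    _ ≤ ∑ _a ∈ I, μ ^ n / n := sum_le_sum hterm
    _ = I.card * (μ ^ n / n) := by rw [sum_const, nsmul_eq_mul]
    _ ≤ n * (μ ^ n / n) := mul_le_mul_of_nonneg_right hcard (by positivity)
    _ = μ ^ n := by field_simp

theorem exists_M : ∃ M : ℕ, 1 ≤ M ∧ ∀ s : ℕ, 1 ≤ s → s ≤ 4 → 4000 * s ^ 4 * t s ≤ M ^ s := by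
  refine ⟨1 + ∑ s ∈ Finset.range 5, 4000 * s ^ 4 * t s, by omega, ?_⟩
  intro s h1 h4
  set M := 1 + ∑ s ∈ Finset.range 5, 4000 * s ^ 4 * t s with hM
  have h5 : 4000 * s ^ 4 * t s ≤ ∑ s ∈ Finset.range 5, 4000 * s ^ 4 * t s :=
    single_le_sum (f := fun s => 4000 * s ^ 4 * t s) (fun _ _ => Nat.zero_le _)
      (mem_range.mpr (by omega))
  calc 4000 * s ^ 4 * t s ≤ M := by omega
    _ = M ^ 1 := (pow_one M).symm
    _ ≤ M ^ s := Nat.pow_le_pow_right (by omega) h1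

theorem exists_bound : ∃ M : ℕ, 1 ≤ M ∧ ∀ n : ℕ, 1 ≤ n → (t n : ℝ) ≤ (M : ℝ) ^ n := by
  obtain ⟨M, hM1, hM⟩ := exists_M
  refine ⟨M, hM1, fun n hn => ?_⟩
  have h := crit 1 le_rfl (M : ℝ) (Nat.cast_nonneg _) (by
    intro s h1 h4
    exact_mod_cast hM s h1 (by omega)) n hn
  have hn1 : (1 : ℝ) ≤ n := by exact_mod_cast hn
  have h2 : (1 : ℝ) ≤ 4000 * (n : ℝ) ^ 4 := by
    have := one_le_pow₀ hn1 (n := 4)
    linarith
  have h3 : (0 : ℝ) ≤ t n := Nat.cast_nonneg _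
  nlinarith

theorem exists_lam : ∃ lam : ℝ, 0 < lam ∧
    Tendsto (fun n : ℕ => (t n : ℝ) ^ (1 / (n : ℝ))) atTop (nhds lam) ∧
    ∀ n : ℕ, 1 ≤ n → (t n : ℝ) ≤ lam ^ n := by
  let u : ℕ → ℝ := fun n => - Real.log (t n)
  have hsub : Subadditive u := by
    intro m n
    rcases Nat.eq_zero_or_pos m with rfl | hm
    · simp [u, t_zero]
    rcases Nat.eq_zero_or_pos n with rfl | hn
    · simp [u, t_zero]
    have h1 : (0 : ℝ) < t m := by exact_mod_cast t_pos m hm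
    have h2 : (0 : ℝ) < t n := by exact_mod_cast t_pos n hn
    have h3 : (t m : ℝ) * t n ≤ t (m + n) := by exact_mod_cast t_mul m n hm hn
    have h4 := Real.log_le_log (by positivity) h3
    rw [Real.log_mul h1.ne' h2.ne'] at h4
    simp only [u]
    linarith
  obtain ⟨M, hM1, hM⟩ := exists_bound
  have hM1' : (1 : ℝ) ≤ M := by exact_mod_cast hM1
  have hlogM : 0 ≤ Real.log M := Real.log_nonneg hM1'
  have hbdd : BddBelow (Set.range fun n => u n / n) := by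
    refine ⟨-Real.log M, ?_⟩
    rintro _ ⟨n, rfl⟩
    rcases Nat.eq_zero_or_pos n with rfl | hn
    · simp [u, t_zero, hlogM]
    have hn0 : (0 : ℝ) < n := by exact_mod_cast hn
    have h2 : (0 : ℝ) < t n := by exact_mod_cast t_pos n hn
    have h4 := Real.log_le_log h2 (hM n hn)
    rw [Real.log_pow] at h4
    simp only [u]
    rw [le_div_iff₀ hn0]
    linarith
  have hlim := hsub.tendsto_lim hbdd
  refine ⟨Real.exp (-hsub.lim), Real.exp_pos _, ?_, ?_⟩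
  · have h1 : Tendsto (fun n : ℕ => Real.exp (-(u n / n))) atTop (nhds (Real.exp (-hsub.lim))) :=
      (Real.continuous_exp.tendsto _).comp hlim.neg
    refine h1.congr' ?_
    filter_upwards [eventually_ge_atTop 1] with n hn
    have h2 : (0 : ℝ) < t n := by exact_mod_cast t_pos n hn
    rw [Real.rpow_def_of_pos h2]
    congr 1
    simp only [u]; ring
  · intro n hn
    have hn0 : (0 : ℝ) < n := by exact_mod_cast hn
    have h2 : (0 : ℝ) < t n := by exact_mod_cast t_pos n hn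
    have h3 := hsub.lim_le_div hbdd (n := n) (by omega)
    rw [← Real.exp_nat_mul]
    rw [← Real.exp_log h2]
    apply Real.exp_le_exp.mpr
    rw [le_div_iff₀ hn0] at h3
    simp only [u] at h3
    linarith

/-- the certificate for an upper bound `r / D` -/
def Cert (K r D : ℕ) : Prop := ∀ s < 4 * K + 1, K ≤ s → 4000 * s ^ 4 * t s * D ^ s ≤ r ^ s

theorem cert_upper {lam : ℝ} (hlam : Tendsto (fun n : ℕ => (t n : ℝ) ^ (1 / (n : ℝ))) atTop (nhds lam))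
    {K r D : ℕ} (hK : 1 ≤ K) (hD : 0 < D) (h : Cert K r D) : lam ≤ (r : ℝ) / D := by
  have hD' : (0 : ℝ) < D := by exact_mod_cast hD
  set μ : ℝ := (r : ℝ) / D with hμ
  have hμ0 : 0 ≤ μ := by positivity
  have hc := crit K hK μ hμ0 (by
    intro s h1 h2
    have h3 := h s (by omega) h1
    have h4 : 4000 * (s : ℝ) ^ 4 * t s * (D : ℝ) ^ s ≤ (r : ℝ) ^ s := by exact_mod_cast h3
    rw [hμ, div_pow, le_div_iff₀ (by positivity)]
    exact h4)
  refine le_of_tendsto hlam ?_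
  filter_upwards [eventually_ge_atTop (max K 1)] with n hn
  have hn1 : 1 ≤ n := (le_max_right _ _).trans hn
  have hn0 : (0 : ℝ) < n := by exact_mod_cast hn1
  have h5 := hc n ((le_max_left _ _).trans hn)
  have h6 : (t n : ℝ) ≤ μ ^ n := by
    have hn1' : (1 : ℝ) ≤ n := by exact_mod_cast hn1
    have h2 : (1 : ℝ) ≤ 4000 * (n : ℝ) ^ 4 := by
      have := one_le_pow₀ hn1' (n := 4)
      linarith
    have h3 : (0 : ℝ) ≤ t n := Nat.cast_nonneg _
    nlinarith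
  calc (t n : ℝ) ^ (1 / (n : ℝ)) ≤ (μ ^ n) ^ (1 / (n : ℝ)) :=
        Real.rpow_le_rpow (Nat.cast_nonneg _) h6 (by positivity)
    _ = μ := by
        rw [← Real.rpow_natCast, ← Real.rpow_mul hμ0, mul_one_div_cancel hn0.ne', Real.rpow_one]

theorem cert_exists {lam : ℝ} (h0 : 0 < lam) (hlam : ∀ n : ℕ, 1 ≤ n → (t n : ℝ) ≤ lam ^ n)
    {q : ℝ} (hq : lam < q) : ∃ K0 : ℕ, 1 ≤ K0 ∧ ∀ K, K0 ≤ K → ∀ r D : ℕ, 0 < D → q ≤ (r : ℝ) / D →
      Cert K r D := by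
  have hq0 : 0 < q := h0.trans hq
  have h1 : Tendsto (fun n : ℕ => (n : ℝ) ^ 4 * (lam / q) ^ n) atTop (nhds 0) :=
    tendsto_pow_const_mul_const_pow_of_abs_lt_one 4 (by
      rw [abs_of_pos (by positivity), div_lt_one hq0]; exact hq)
  have h2 := h1.eventually_lt_const (u := 1 / 4000) (by norm_num)
  obtain ⟨K0, hK0⟩ := eventually_atTop.mp h2
  refine ⟨max K0 1, le_max_right _ _, ?_⟩
  intro K hK r D hD hr s _ hs
  have hD' : (0 : ℝ) < D := by exact_mod_cast hD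
  have hs0 : K0 ≤ s := (le_max_left _ _).trans (hK.trans hs)
  have hs1 : 1 ≤ s := (le_max_right _ _).trans (hK.trans hs)
  have h3 := hK0 s hs0
  have h4 := hlam s hs1
  have h5 : 4000 * (s : ℝ) ^ 4 * t s ≤ q ^ s := by
    have h6 : (s : ℝ) ^ 4 * (lam / q) ^ s * q ^ s ≤ 1 / 4000 * q ^ s :=
      mul_le_mul_of_nonneg_right h3.le (by positivity)
    rw [div_pow, mul_assoc, div_mul_cancel₀ _ (by positivity)] at h6
    have h7 : 4000 * (s : ℝ) ^ 4 * t s ≤ 4000 * (s : ℝ) ^ 4 * lam ^ s :=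
      mul_le_mul_of_nonneg_left h4 (by positivity)
    linarith
  have h8 : q ^ s ≤ ((r : ℝ) / D) ^ s := pow_le_pow_left₀ hq0.le hr s
  have h9 : 4000 * (s : ℝ) ^ 4 * t s * (D : ℝ) ^ s ≤ (r : ℝ) ^ s := by
    rw [div_pow] at h8
    have := h5.trans h8
    rwa [le_div_iff₀ (by positivity)] at this
  exact_mod_cast h9

end Pool.Agent.W219.Klarner
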