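import Pool.Agent.W219.Klarner.Basic

set_option autoImplicit false

namespace Pool.Agent.W219.Klarner

open Finset

/-- normalised: the least first coordinate and the least second coordinate are `0` -/
def Norm (S : Finset (ℤ × ℤ)) : Prop :=
  (∀ a ∈ S, 0 ≤ a.1 ∧ 0 ≤ a.2) ∧ (∃ a ∈ S, a.1 = 0) ∧ ∃ a ∈ S, a.2 = 0

theorem norm_unique {S : Finset (ℤ × ℤ)} {v : ℤ × ℤ} (h1 : Norm S) (h2 : Norm (translate v S)) :
    v = 0 := by
  obtain ⟨h1a, ⟨x, hx, hx0⟩, ⟨y, hy, hy0⟩⟩ := h1
  obtain ⟨h2a, ⟨z, hz, hz0⟩, ⟨w, hw, hw0⟩⟩ := h2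
  have e1 := h2a (x + v) (by rw [mem_translate]; simpa using hx)
  have e2 := h2a (y + v) (by rw [mem_translate]; simpa using hy)
  have e3 := h1a (z - v) (mem_translate.mp hz)
  have e4 := h1a (w - v) (mem_translate.mp hw)
  simp only [Prod.fst_add, Prod.snd_add, Prod.fst_sub, Prod.snd_sub] at e1 e2 e3 e4
  ext
  · simp; omega
  · simp; omega

theorem exists_norm {S : Finset (ℤ × ℤ)} (hS : S.Nonempty) : ∃ v, Norm (translate v S) := by
  obtain ⟨x, hx, hxm⟩ := exists_min_image S (fun a => a.1) hS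
  obtain ⟨y, hy, hym⟩ := exists_min_image S (fun a => a.2) hS
  refine ⟨(-x.1, -y.2), ?_, ?_, ?_⟩
  · intro a ha
    rw [mem_translate] at ha
    have h1 := hxm _ ha
    have h2 := hym _ ha
    simp only [Prod.fst_sub, Prod.snd_sub] at h1 h2
    omega
  · exact ⟨x + (-x.1, -y.2), by rw [mem_translate]; simpa using hx, by simp⟩
  · exact ⟨y + (-x.1, -y.2), by rw [mem_translate]; simpa using hy, by simp⟩

theorem adj_cases {a b : ℤ × ℤ} (h : Adj a b) :
    (a.1 = b.1 ∧ (a.2 = b.2 + 1 ∨ b.2 = a.2 + 1)) ∨ (a.2 = b.2 ∧ (a.1 = b.1 + 1 ∨ b.1 = a.1 + 1)) := by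
  unfold Adj at h
  rcases abs_cases (a.1 - b.1) with h1 | h1 <;> rcases abs_cases (a.2 - b.2) with h2 | h2 <;> omega

theorem bound1 {S : Finset (ℤ × ℤ)} (hS : IsPolyomino S) (hN : Norm S) {a : ℤ × ℤ} (ha : a ∈ S) :
    a.1 < S.card := by
  obtain ⟨h1, ⟨b, hb, hb0⟩, _⟩ := hN
  have key : ∀ z, Ch S b z → ∀ j : ℤ, 0 ≤ j → j ≤ z.1 → ∃ c ∈ S, c.1 = j := by
    intro z hz
    induction hz with
    | refl => intro j h0 hj; exact ⟨b, hb, by omega⟩
    | @tail x y _ hxy ih =>
      intro j h0 hj
      by_cases hjx : j ≤ x.1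
      · exact ih j h0 hjx
      · refine ⟨y, hxy.2.1, ?_⟩
        rcases adj_cases hxy.2.2 with h | h <;> omega
  have h2 := key a (hS.2 b hb a ha)
  have h3 : (Finset.Icc (0 : ℤ) a.1) ⊆ S.image (fun c => c.1) := by
    intro j hj
    rw [Finset.mem_Icc] at hj
    obtain ⟨c, hc, hcj⟩ := h2 j hj.1 hj.2
    exact mem_image.mpr ⟨c, hc, hcj⟩
  have h4 := (card_le_card h3).trans card_image_le
  rw [Int.card_Icc] at h4
  have := (h1 a ha).1
  omega

theorem bound2 {S : Finset (ℤ × ℤ)} (hS : IsPolyomino S) (hN : Norm S) {a : ℤ × ℤ} (ha : a ∈ S) :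
    a.2 < S.card := by
  obtain ⟨h1, _, ⟨b, hb, hb0⟩⟩ := hN
  have key : ∀ z, Ch S b z → ∀ j : ℤ, 0 ≤ j → j ≤ z.2 → ∃ c ∈ S, c.2 = j := by
    intro z hz
    induction hz with
    | refl => intro j h0 hj; exact ⟨b, hb, by omega⟩
    | @tail x y _ hxy ih =>
      intro j h0 hj
      by_cases hjx : j ≤ x.2
      · exact ih j h0 hjx
      · refine ⟨y, hxy.2.1, ?_⟩
        rcases adj_cases hxy.2.2 with h | h <;> omega
  have h2 := key a (hS.2 b hb a ha)
  have h3 : (Finset.Icc (0 : ℤ) a.2) ⊆ S.image (fun c => c.2) := by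
    intro j hj
    rw [Finset.mem_Icc] at hj
    obtain ⟨c, hc, hcj⟩ := h2 j hj.1 hj.2
    exact mem_image.mpr ⟨c, hc, hcj⟩
  have h4 := (card_le_card h3).trans card_image_le
  rw [Int.card_Icc] at h4
  have := (h1 a ha).2
  omega

open Classical in
/-- the normalised polyominoes with `n` cells -/
noncomputable def N (n : ℕ) : Finset (Finset (ℤ × ℤ)) :=
  ((Finset.Ico (0 : ℤ) n ×ˢ Finset.Ico (0 : ℤ) n).powerset).filter
    (fun S => IsPolyomino S ∧ S.card = n ∧ Norm S)

theorem mem_N {n : ℕ} {S : Finset (ℤ × ℤ)} : S ∈ N n ↔ IsPolyomino S ∧ S.card = n ∧ Norm S := by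
  classical
  unfold N
  rw [mem_filter, mem_powerset]
  constructor
  · exact fun h => h.2
  · intro h
    refine ⟨?_, h⟩
    intro a ha
    rw [mem_product, Finset.mem_Ico, Finset.mem_Ico]
    have h1 := bound1 h.1 h.2.2 ha
    have h2 := bound2 h.1 h.2.2 ha
    have h3 := h.2.2.1 a ha
    rw [h.2.1] at h1 h2
    exact ⟨⟨h3.1, h1⟩, ⟨h3.2, h2⟩⟩

theorem exists_rep {n : ℕ} {S : Finset (ℤ × ℤ)} (hS : IsPolyomino S) (hn : S.card = n) :
    ∃ v, translate v S ∈ N n := by
  obtain ⟨v, hv⟩ := exists_norm hS.1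
  exact ⟨v, mem_N.mpr ⟨isPoly_translate v hS, by rw [card_translate, hn], hv⟩⟩

/-- the translation class -/
def cls (S : Finset (ℤ × ℤ)) : Set (Finset (ℤ × ℤ)) := {T | ∃ v, T = translate v S}

theorem cls_translate (v : ℤ × ℤ) (S : Finset (ℤ × ℤ)) : cls (translate v S) = cls S := by
  ext T
  constructor
  · rintro ⟨w, rfl⟩; exact ⟨v + w, by rw [translate_translate]⟩
  · rintro ⟨w, rfl⟩
    exact ⟨-v + w, by rw [translate_translate]; congr 1; abel⟩

theorem t_eq (n : ℕ) : t n = (N n).card := by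
  have h1 : fixedOminoes n = cls '' (N n : Set (Finset (ℤ × ℤ))) := by
    ext C
    constructor
    · rintro ⟨S, hS, hn, rfl⟩
      obtain ⟨v, hv⟩ := exists_rep hS hn
      exact ⟨translate v S, hv, cls_translate v S⟩
    · rintro ⟨S, hS, rfl⟩
      have := mem_N.mp hS
      exact ⟨S, this.1, this.2.1, rfl⟩
  unfold t
  rw [h1, Set.InjOn.ncard_image, Set.ncard_coe_finset]
  intro S hS T hT hST
  have h2 : T ∈ cls S := by rw [hST]; exact ⟨0, (translate_zero T).symm⟩
  obtain ⟨v, rfl⟩ := h2
  have := norm_unique (mem_N.mp hS).2.2 (mem_N.mp hT).2.2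
  rw [this, translate_zero]

/-- counting: the splitting inequality -/
theorem t_split (n : ℕ) (hn : 2 ≤ n) :
    t n ≤ ∑ a ∈ (Finset.range n).filter (fun a => n ≤ 4 * a + 1 ∧ 2 * a ≤ n),
      t a * t (n - a) * (a * (n - a) * 4) := by
  classical
  -- the reconstruction
  have hnorm : ∀ S : Finset (ℤ × ℤ), ∃ v, S.Nonempty → Norm (translate v S) := by
    intro S
    by_cases h : S.Nonempty
    · obtain ⟨v, hv⟩ := exists_norm h; exact ⟨v, fun _ => hv⟩
    · exact ⟨0, fun h' => absurd h' h⟩
  choose ν hν using hnorm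
  let I := (Finset.range n).filter (fun a => n ≤ 4 * a + 1 ∧ 2 * a ≤ n)
  let R : Finset (ℤ × ℤ) → Finset (ℤ × ℤ) → ℤ × ℤ → ℤ × ℤ → ℤ × ℤ → Finset (ℤ × ℤ) :=
    fun A B u v δ =>
      translate (ν (A ∪ translate (u + δ - v) B)) (A ∪ translate (u + δ - v) B)
  have hsub : N n ⊆ I.biUnion (fun a => (N a).biUnion (fun A => (N (n - a)).biUnion (fun B =>
      A.biUnion (fun u => B.biUnion (fun v => (nb 0).image (fun δ => R A B u v δ)))))) := by
    intro S hS
    obtain ⟨hSp, hSn, hSN⟩ := mem_N.mp hS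
    obtain ⟨A, B, hAB, hdis, hA, hB, h4, hle, u, hu, w, hw, huw⟩ := split hSp (by omega)
    have hcard : A.card + B.card = S.card := by
      rw [← card_union_of_disjoint hdis, hAB]
    have hApos := card_pos.mpr hA.1
    have hBpos := card_pos.mpr hB.1
    obtain ⟨x, hx⟩ := exists_rep hA rfl
    obtain ⟨y, hy⟩ := exists_rep hB rfl
    have hBn : n - A.card = B.card := by omega
    simp only [mem_biUnion]
    refine ⟨A.card, ?_, translate x A, hx, translate y B, ?_, u + x, ?_, w + y, ?_, ?_⟩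
    · simp only [I, mem_filter, mem_range]; omega
    · rw [hBn]; exact hy
    · rw [mem_translate]; simpa using hu
    · rw [mem_translate]; simpa using hw
    · rw [mem_image]
      refine ⟨w - u, ?_, ?_⟩
      · rw [mem_nb]
        have := adj_add (-u) huw
        simpa [sub_eq_add_neg] using this
      · have e1 : translate (u + x + (w - u) - (w + y)) (translate y B) = translate x B := by
          rw [translate_translate]; congr 1; abel
        have e2 : translate x A ∪ translate (u + x + (w - u) - (w + y)) (translate y B) =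
            translate x S := by
          rw [e1, ← translate_union, hAB]
        simp only [R]
        rw [e2, translate_translate]
        have hne : (translate x S).Nonempty := by
          rw [← card_pos, card_translate]; omega
        have h5 := hν (translate x S) hne
        rw [translate_translate] at h5
        rw [norm_unique hSN h5, translate_zero]
  rw [t_eq]
  calc (N n).card ≤ _ := card_le_card hsub
    _ ≤ ∑ a ∈ I, ((N a).biUnion (fun A => (N (n - a)).biUnion (fun B =>
      A.biUnion (fun u => B.biUnion (fun v => (nb 0).image (fun δ => R A B u v δ)))))).card :=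
        card_biUnion_le
    _ ≤ ∑ a ∈ I, t a * t (n - a) * (a * (n - a) * 4) := by
        refine sum_le_sum (fun a _ => ?_)
        calc _ ≤ ∑ A ∈ N a, ((N (n - a)).biUnion (fun B =>
              A.biUnion (fun u => B.biUnion (fun v => (nb 0).image (fun δ => R A B u v δ))))).card :=
              card_biUnion_le
          _ ≤ ∑ A ∈ N a, ∑ B ∈ N (n - a), (A.biUnion (fun u => B.biUnion
              (fun v => (nb 0).image (fun δ => R A B u v δ)))).card :=
              sum_le_sum (fun _ _ => card_biUnion_le)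
          _ ≤ ∑ A ∈ N a, ∑ B ∈ N (n - a), ∑ u ∈ A, (B.biUnion
              (fun v => (nb 0).image (fun δ => R A B u v δ))).card :=
              sum_le_sum (fun _ _ => sum_le_sum (fun _ _ => card_biUnion_le))
          _ ≤ ∑ A ∈ N a, ∑ B ∈ N (n - a), ∑ u ∈ A, ∑ v ∈ B,
              ((nb 0).image (fun δ => R A B u v δ)).card :=
              sum_le_sum (fun _ _ => sum_le_sum (fun _ _ => sum_le_sum
                (fun _ _ => card_biUnion_le)))
          _ ≤ ∑ A ∈ N a, ∑ B ∈ N (n - a), ∑ u ∈ A, ∑ v ∈ B, 4 :=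
              sum_le_sum (fun _ _ => sum_le_sum (fun _ _ => sum_le_sum
                (fun _ _ => sum_le_sum (fun _ _ => card_image_le.trans (card_nb 0)))))
          _ = ∑ A ∈ N a, ∑ B ∈ N (n - a), (a * (n - a) * 4) := by
              refine sum_congr rfl (fun A hA => sum_congr rfl (fun B hB => ?_))
              rw [sum_const, sum_const, (mem_N.mp hA).2.1, (mem_N.mp hB).2.1]
              simp only [smul_eq_mul]; ring
          _ = t a * t (n - a) * (a * (n - a) * 4) := by
              rw [sum_const, sum_const, t_eq, t_eq]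
              simp only [smul_eq_mul]; ring

/-- lexicographic order -/
def Lx (a b : ℤ × ℤ) : Prop := a.1 < b.1 ∨ (a.1 = b.1 ∧ a.2 < b.2)

theorem lx_trans {a b c : ℤ × ℤ} (h1 : Lx a b) (h2 : Lx b c) : Lx a c := by
  unfold Lx at *; omega

theorem lx_irrefl (a : ℤ × ℤ) : ¬ Lx a a := by unfold Lx; omega

theorem lx_add {a b : ℤ × ℤ} (v : ℤ × ℤ) (h : Lx a b) : Lx (a + v) (b + v) := by
  unfold Lx at *; simp only [Prod.fst_add, Prod.snd_add]; omega

theorem exists_lxmax {S : Finset (ℤ × ℤ)} (hS : S.Nonempty) :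
    ∃ m ∈ S, ∀ a ∈ S, a = m ∨ Lx a m := by
  obtain ⟨m, hm, h⟩ := exists_max_image S (fun a => toLex a) hS
  refine ⟨m, hm, fun a ha => ?_⟩
  have h1 := h a ha
  rw [Prod.Lex.toLex_le_toLex] at h1
  unfold Lx
  rcases h1 with h1 | ⟨h1, h2⟩
  · exact Or.inr (Or.inl h1)
  · rcases h2.lt_or_eq with h3 | h3
    · exact Or.inr (Or.inr ⟨h1, h3⟩)
    · exact Or.inl (Prod.ext h1 h3)

theorem exists_lxmin {S : Finset (ℤ × ℤ)} (hS : S.Nonempty) :
    ∃ m ∈ S, ∀ a ∈ S, a = m ∨ Lx m a := by
  obtain ⟨m, hm, h⟩ := exists_min_image S (fun a => toLex a) hS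
  refine ⟨m, hm, fun a ha => ?_⟩
  have h1 := h a ha
  rw [Prod.Lex.toLex_le_toLex] at h1
  unfold Lx
  rcases h1 with h1 | ⟨h1, h2⟩
  · exact Or.inr (Or.inl h1)
  · rcases h2.lt_or_eq with h3 | h3
    · exact Or.inr (Or.inr ⟨h1, h3⟩)
    · exact Or.inl (Prod.ext h1.symm h3.symm)

theorem initial_eq {A B A' B' : Finset (ℤ × ℤ)} (hU : A ∪ B = A' ∪ B') (hc : A.card = A'.card)
    (h1 : ∀ a ∈ A, ∀ b ∈ B, Lx a b) (h2 : ∀ a ∈ A', ∀ b ∈ B', Lx a b) : A = A' := by
  have hsub : A ⊆ A' := by
    intro a ha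
    by_contra haA
    have haB : a ∈ B' := by
      have : a ∈ A' ∪ B' := by rw [← hU]; exact mem_union_left _ ha
      exact (mem_union.mp this).resolve_left haA
    have hsub' : A' ⊆ A.erase a := by
      intro x hx
      have hxa := h2 x hx a haB
      have : x ∈ A ∪ B := by rw [hU]; exact mem_union_left _ hx
      refine mem_erase.mpr ⟨?_, ?_⟩
      · rintro rfl; exact lx_irrefl _ hxa
      · refine (mem_union.mp this).resolve_right (fun hxB => ?_)
        exact lx_irrefl _ (lx_trans hxa (h1 a ha x hxB))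
    have := card_le_card hsub'
    rw [card_erase_of_mem ha] at this
    have := card_pos.mpr ⟨a, ha⟩
    omega
  exact eq_of_subset_of_card_le hsub hc.ge

theorem t_mul (m n : ℕ) (hm : 1 ≤ m) (hn : 1 ≤ n) : t m * t n ≤ t (m + n) := by
  classical
  rw [t_eq, t_eq, t_eq, ← card_product]
  have hcon : ∀ p : Finset (ℤ × ℤ) × Finset (ℤ × ℤ), ∃ w S, p ∈ N m ×ˢ N n →
      (∀ a ∈ p.1, ∀ b ∈ translate w p.2, Lx a b) ∧ S ∈ N (m + n) ∧
      ∃ x, S = translate x (p.1 ∪ translate w p.2) := by
    intro p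
    by_cases hp : p ∈ N m ×ˢ N n
    swap
    · exact ⟨0, ∅, fun h => absurd h hp⟩
    obtain ⟨hA, hB⟩ := mem_product.mp hp
    obtain ⟨hA1, hA2, hA3⟩ := mem_N.mp hA
    obtain ⟨hB1, hB2, hB3⟩ := mem_N.mp hB
    obtain ⟨a, ha, hamax⟩ := exists_lxmax hA1.1
    obtain ⟨b, hb, hbmin⟩ := exists_lxmin hB1.1
    set w := a + (0, 1) - b with hw
    have hlx : ∀ x ∈ p.1, ∀ y ∈ translate w p.2, Lx x y := by
      intro x hx y hy
      rw [mem_translate] at hy
      have h1 : x = a ∨ Lx x a := hamax x hx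
      have h2 : Lx a y := by
        rcases hbmin _ hy with h | h
        · have : y = a + (0, 1) := by rw [sub_eq_iff_eq_add.mp h, hw]; abel
          rw [this]; unfold Lx; simp
        · have h3 := lx_add w h
          rw [sub_add_cancel] at h3
          have h4 : b + w = a + (0, 1) := by rw [hw]; abel
          rw [h4] at h3
          refine lx_trans ?_ h3
          unfold Lx; simp
      rcases h1 with rfl | h1
      · exact h2
      · exact lx_trans h1 h2
    have hdis : Disjoint p.1 (translate w p.2) := by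
      rw [disjoint_left]
      intro x hx hx'
      exact lx_irrefl x (hlx x hx x hx')
    have hpoly : IsPolyomino (p.1 ∪ translate w p.2) := by
      refine isPoly_union hA1 (isPoly_translate w hB1) ha
        (v := a + (0, 1)) ?_ ?_
      · rw [mem_translate, hw]
        have : a + (0, 1) - (a + (0, 1) - b) = b := by abel
        rw [this]; exact hb
      · unfold Adj; simp
    have hcard : (p.1 ∪ translate w p.2).card = m + n := by
      rw [card_union_of_disjoint hdis, card_translate, hA2, hB2]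
    obtain ⟨x, hx⟩ := exists_rep hpoly hcard
    exact ⟨w, _, fun _ => ⟨hlx, hx, x, rfl⟩⟩
  choose w S hS using hcon
  refine card_le_card_of_injOn S (fun p hp => (hS p hp).2.1) ?_
  intro p hp q hq hpq
  obtain ⟨h1, h2, x, hx⟩ := hS p hp
  obtain ⟨g1, g2, y, hy⟩ := hS q hq
  obtain ⟨hA, hB⟩ := mem_product.mp hp
  obtain ⟨hA', hB'⟩ := mem_product.mp hq
  have hNA := mem_N.mp hA
  have hNB := mem_N.mp hB
  have hNA' := mem_N.mp hA'
  have hNB' := mem_N.mp hB'
  have he : translate x (p.1 ∪ translate (w p) p.2) = translate y (q.1 ∪ translate (w q) q.2) := by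
    rw [← hx, ← hy]; exact hpq
  rw [translate_union, translate_union] at he
  have hl1 : ∀ a ∈ translate x p.1, ∀ b ∈ translate x (translate (w p) p.2), Lx a b := by
    intro a ha b hb
    have := lx_add x (h1 _ (mem_translate.mp ha) _ (mem_translate.mp hb))
    simpa using this
  have hl2 : ∀ a ∈ translate y q.1, ∀ b ∈ translate y (translate (w q) q.2), Lx a b := by
    intro a ha b hb
    have := lx_add y (g1 _ (mem_translate.mp ha) _ (mem_translate.mp hb))
    simpa using this
  have e1 := initial_eq he (by rw [card_translate, card_translate, hNA.2.1, hNA'.2.1]) hl1 hl2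
  have e2 : translate x (translate (w p) p.2) = translate y (translate (w q) q.2) := by
    ext b
    have hb := congrArg (fun T => b ∈ T) he
    simp only [mem_union, eq_iff_iff] at hb
    constructor
    · intro h
      rcases hb.mp (Or.inr h) with h' | h'
      · rw [← e1] at h'
        exact absurd (hl1 b h' b h) (lx_irrefl b)
      · exact h'
    · intro h
      rcases hb.mpr (Or.inr h) with h' | h'
      · rw [e1] at h'
        exact absurd (hl2 b h' b h) (lx_irrefl b)
      · exact h'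
  have f1 : q.1 = translate (x - y) p.1 := by
    have := congrArg (translate (-y)) e1
    rw [translate_translate, translate_translate] at this
    rw [show x + -y = x - y by abel, show y + -y = 0 by abel, translate_zero] at this
    exact this.symm
  have hxy : x - y = 0 := norm_unique hNA.2.2 (by rw [← f1]; exact hNA'.2.2)
  have f2 : q.2 = translate (w p + x - y - w q) p.2 := by
    have := congrArg (translate (-y - w q)) e2
    simp only [translate_translate] at this
    rw [show w q + y + (-y - w q) = 0 by abel, translate_zero] at this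
    rw [← this]; congr 1; abel
  have hz : w p + x - y - w q = 0 := norm_unique hNB.2.2 (by rw [← f2]; exact hNB'.2.2)
  refine Prod.ext ?_ ?_
  · rw [f1, hxy, translate_zero]
  · rw [f2, hz, translate_zero]

theorem t_zero : t 0 = 0 := by
  rw [t_eq, card_eq_zero]
  refine eq_empty_of_forall_notMem (fun S hS => ?_)
  obtain ⟨h1, h2, _⟩ := mem_N.mp hS
  have := card_pos.mpr h1.1
  omega

theorem t_one_pos : 1 ≤ t 1 := by
  rw [t_eq, Nat.one_le_iff_ne_zero, ← Nat.pos_iff_ne_zero, card_pos]
  refine ⟨{(0, 0)}, mem_N.mpr ⟨⟨by simp, ?_⟩, by simp, ?_⟩⟩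
  · intro a ha b hb
    rw [mem_singleton] at ha hb
    rw [ha, hb]
  · exact ⟨by simp, by simp, by simp⟩

theorem t_pos (n : ℕ) (hn : 1 ≤ n) : 1 ≤ t n := by
  induction n, hn using Nat.le_induction with
  | base => exact t_one_pos
  | succ n hn ih =>
    calc 1 ≤ t n * t 1 := Nat.mul_pos ih t_one_pos
      _ ≤ t (n + 1) := t_mul n 1 hn le_rfl

end Pool.Agent.W219.Klarner
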